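import Pool.Agent.H54.KVA.Defs2
import Pool.Agent.H58.STK.Base

/-!
# Module IDX: the dependences of the blocks
-/

set_option autoImplicit false

namespace Pool.KVA

open Finset Real MeasureTheory
open Pool.Agent.H49.Ent Pool.Agent.H32.Dense Pool.STK

namespace IDX

/-- Mutual information is nonnegative. -/
lemma MI_nonneg {Ω S T β : Type} [Fintype Ω] {p : Ω → ℝ} (hp : IsLaw p) (A : Ω → S) (B : Ω → T)
    (b : Ω → β) : 0 ≤ MI p A B b := by
  unfold MI
  have := CH_subadd hp.nonneg A B b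
  linarith

/-- Splitting of the mutual information of two pairs of variables. -/
lemma step {Ω S S' T T' β : Type} [Fintype Ω] {p : Ω → ℝ} (hp : IsLaw p) (A : Ω → S)
    (A' : Ω → S') (B : Ω → T) (B' : Ω → T') (b : Ω → β) (hA : Det p A' A) (hB : Det p B' B) :
    MI p A' B' (fun ω => (b ω, A ω, B ω)) ≤ MI p A' B' b - MI p A B b := by
  have h1 : H p (fun ω => (A' ω, (b ω, A ω, B ω))) + H p (fun ω => (A ω, b ω)) ≤
      H p (fun ω => (A' ω, b ω)) + H p (fun ω => (b ω, A ω, B ω)) := by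
    refine submod hp.nonneg ?_ ?_ ?_
    · intro ω ω' a c e
      simp only [Prod.mk.injEq] at e ⊢
      exact ⟨hA ω ω' a c e.1, e.2⟩
    · intro ω ω' a c e
      simp only [Prod.mk.injEq] at e ⊢
      tauto
    · intro ω ω' a c e
      simp only [Prod.mk.injEq] at e ⊢
      tauto
  have h2 : H p (fun ω => (B' ω, (b ω, A ω, B ω))) + H p (fun ω => (B ω, b ω)) ≤
      H p (fun ω => (B' ω, b ω)) + H p (fun ω => (b ω, A ω, B ω)) := by
    refine submod hp.nonneg ?_ ?_ ?_
    · intro ω ω' a c e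
      simp only [Prod.mk.injEq] at e ⊢
      exact ⟨hB ω ω' a c e.1, e.2⟩
    · intro ω ω' a c e
      simp only [Prod.mk.injEq] at e ⊢
      tauto
    · intro ω ω' a c e
      simp only [Prod.mk.injEq] at e ⊢
      tauto
  have h3 : H p (fun ω => ((A' ω, B' ω), (b ω, A ω, B ω))) =
      H p (fun ω => ((A' ω, B' ω), b ω)) := by
    refine H_congr hp.nonneg ?_ ?_
    · intro ω ω' a c e
      simp only [Prod.mk.injEq] at e ⊢
      obtain ⟨⟨e1, e2⟩, e3⟩ := e
      exact ⟨⟨e1, e2⟩, e3, hA ω ω' a c e1, hB ω ω' a c e2⟩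
    · intro ω ω' a c e
      simp only [Prod.mk.injEq] at e ⊢
      tauto
  have h4 : H p (fun ω => ((A ω, B ω), b ω)) = H p (fun ω => (b ω, A ω, B ω)) := by
    refine H_congr hp.nonneg ?_ ?_ <;>
    · intro ω ω' a c e
      simp only [Prod.mk.injEq] at e ⊢
      tauto
  unfold MI CH
  linarith

end IDX

theorem idx_thm : IDXStmt := by
  intro d Ω β _ p X Y b k N hp
  refine ⟨fun r => IDX.MI_nonneg hp _ _ _, ?_⟩
  have h1 : ∀ r ∈ Finset.range N,
      MI p (Fl X ((r + 1) * k)) (Fl Y ((r + 1) * k)) (ctx b X Y k r) ≤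
        MI p (Fl X ((r + 1) * k)) (Fl Y ((r + 1) * k)) b -
          MI p (Fl X (r * k)) (Fl Y (r * k)) b := by
    intro r _
    have hr : r * k ≤ (r + 1) * k := Nat.mul_le_mul_right k (Nat.le_succ r)
    exact IDX.step hp (Fl X (r * k)) (Fl X ((r + 1) * k)) (Fl Y (r * k)) (Fl Y ((r + 1) * k)) b
      (fun ω ω' _ _ e => B58.Fl_fine X hr e) (fun ω ω' _ _ e => B58.Fl_fine Y hr e)
  refine (Finset.sum_le_sum h1).trans ?_
  have h2 := Finset.sum_range_sub (fun r => MI p (Fl X (r * k)) (Fl Y (r * k)) b) N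
  rw [h2]
  have h3 := IDX.MI_nonneg hp (Fl X (0 * k)) (Fl Y (0 * k)) b
  linarith

end Pool.KVA
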