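import Pool.Agent.H54.KVA.Defs

/-!
# Module BVR: bounded variables have bounded conditional variance
-/

set_option autoImplicit false

namespace Pool.KVA

open Finset Real MeasureTheory
open Pool.Agent.H49.Ent Pool.Agent.H32.Dense Pool.STK

namespace BVR

lemma var_eq {Ω : Type} [Fintype Ω] {q : Ω → ℝ} (h1 : ∑ ω, q ω = 1) (f : Ω → ℝ) :
    Var q f = 1 / 2 * ∑ ω, ∑ ω', q ω * q ω' * (f ω - f ω') ^ 2 := by
  have e : ∀ ω, ∑ ω', q ω * q ω' * (f ω - f ω') ^ 2 =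
      q ω * f ω ^ 2 - 2 * Ex q f * (q ω * f ω) + q ω * Ex q (fun ω => f ω ^ 2) := by
    intro ω
    have e1 : q ω * f ω ^ 2 = ∑ ω', q ω' * (q ω * f ω ^ 2) := by
      rw [← Finset.sum_mul, h1, one_mul]
    have e2 : 2 * Ex q f * (q ω * f ω) = ∑ ω', q ω' * f ω' * (2 * (q ω * f ω)) := by
      rw [← Finset.sum_mul]
      unfold Ex
      ring
    have e3 : q ω * Ex q (fun ω => f ω ^ 2) = ∑ ω', q ω * (q ω' * f ω' ^ 2) := by
      rw [← Finset.mul_sum]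
      rfl
    rw [e1, e2, e3, ← Finset.sum_sub_distrib, ← Finset.sum_add_distrib]
    exact Finset.sum_congr rfl fun ω' _ => by ring
  have e4 : ∑ ω, q ω * f ω ^ 2 = Ex q (fun ω => f ω ^ 2) := rfl
  have e5 : ∑ ω, q ω * f ω = Ex q f := rfl
  rw [Finset.sum_congr rfl fun ω _ => e ω, Finset.sum_add_distrib, Finset.sum_sub_distrib,
    ← Finset.mul_sum, ← Finset.sum_mul, h1, e4, e5]
  unfold Var
  ring

lemma var_nonneg {Ω : Type} [Fintype Ω] {q : Ω → ℝ} (h0 : ∀ ω, 0 ≤ q ω) (h1 : ∑ ω, q ω = 1)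
    (f : Ω → ℝ) : 0 ≤ Var q f := by
  rw [var_eq h1]
  refine mul_nonneg (by norm_num) (Finset.sum_nonneg fun ω _ => Finset.sum_nonneg fun ω' _ => ?_)
  exact mul_nonneg (mul_nonneg (h0 ω) (h0 ω')) (sq_nonneg _)

lemma var_le {Ω : Type} [Fintype Ω] {q : Ω → ℝ} (h0 : ∀ ω, 0 ≤ q ω) (h1 : ∑ ω, q ω = 1)
    (f : Ω → ℝ) {L : ℝ} (hf : ∀ ω ω', 0 < q ω → 0 < q ω' → |f ω - f ω'| ≤ L) :
    Var q f ≤ L ^ 2 := by
  have h2 : ∑ ω, ∑ ω', q ω * q ω' * (f ω - f ω') ^ 2 ≤ ∑ ω, ∑ ω', q ω * q ω' * L ^ 2 := by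
    refine Finset.sum_le_sum fun ω _ => Finset.sum_le_sum fun ω' _ => ?_
    rcases (h0 ω).eq_or_lt with e | e
    · rw [← e]
      simp
    rcases (h0 ω').eq_or_lt with e' | e'
    · rw [← e']
      simp
    refine mul_le_mul_of_nonneg_left ?_ (mul_nonneg (h0 ω) (h0 ω'))
    rw [← sq_abs (f ω - f ω')]
    exact pow_le_pow_left₀ (abs_nonneg _) (hf ω ω' e e') 2
  have h3 : ∑ ω, ∑ ω', q ω * q ω' * L ^ 2 = L ^ 2 := by
    have : ∀ ω, ∑ ω', q ω * q ω' * L ^ 2 = q ω * L ^ 2 := by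
      intro ω
      rw [← Finset.sum_mul, ← Finset.mul_sum, h1, mul_one]
    rw [Finset.sum_congr rfl fun ω _ => this ω, ← Finset.sum_mul, h1, one_mul]
  rw [var_eq h1]
  have h4 : 0 ≤ L ^ 2 := sq_nonneg L
  linarith

end BVR

theorem bvr_thm : BVRStmt := by
  intro Ω T _ p f Z L hp hL hf
  have hs : ∀ ω, 0 < p ω → ∑ ω', cond p Z (Z ω) ω' = 1 := fun ω hω =>
    sum_cond p Z (law_pos hp.nonneg Z hω).ne'
  constructor
  · exact Ex_nonneg hp.nonneg fun ω hω =>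
      BVR.var_nonneg (cond_nonneg hp.nonneg Z (Z ω)) (hs ω hω) f
  · have h1 : cVar p f Z ≤ Ex p (fun _ => L ^ 2) := by
      refine Ex_mono hp.nonneg fun ω hω => ?_
      refine BVR.var_le (cond_nonneg hp.nonneg Z (Z ω)) (hs ω hω) f fun ω₁ ω₂ h₁ h₂ => ?_
      rw [cond_pos_iff hp.nonneg] at h₁ h₂
      exact hf ω₁ ω₂ h₁.1 h₂.1 (h₁.2.trans h₂.2.symm)
    rwa [Ex_const hp.sum_one] at h1

end Pool.KVA
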