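import Pool.Agent.H54.KVA.Defs2
import Pool.Agent.H58.STK.Base

/-!
# Module SMA: the losses of the blocks
-/

set_option autoImplicit false

namespace Pool.KVA

open Finset Real MeasureTheory
open Pool.Agent.H49.Ent Pool.Agent.H32.Dense Pool.STK

namespace SMA

/-- Chain rule: `CH(X' | b) = CH(X | b) + CH(X' | X, b)` if `X'` determines `X`. -/
lemma chain {Ω S S' β : Type} [Fintype Ω] {p : Ω → ℝ} (hp : IsLaw p) {A : Ω → S} {A' : Ω → S'}
    (b : Ω → β) (hA : Det p A' A) :
    CH p A' (fun ω => (A ω, b ω)) = CH p A' b - CH p A b := by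
  have h1 := CH_chain hp.nonneg A' A b
  have h2 : CH p (fun ω => (A' ω, A ω)) b = CH p A' b := by
    refine CH_congr hp.nonneg ?_ ?_ (fun _ _ _ _ e => e) (fun _ _ _ _ e => e)
    · intro ω ω' _ _ e
      simp only [Prod.mk.injEq] at e
      exact e.1.1
    · intro ω ω' a c e
      simp only [Prod.mk.injEq] at e ⊢
      exact ⟨e.1, hA ω ω' a c e.1⟩
  linarith

end SMA

theorem sma_thm : SMAStmt := by
  intro d
  have h3 : 0 ≤ Real.log 3 := Real.log_nonneg (by norm_num)
  have h35 : Real.log 3 ≤ Real.log 5 := Real.log_le_log (by norm_num) (by norm_num)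
  have hd : (0 : ℝ) ≤ d := Nat.cast_nonneg d
  refine ⟨d * Real.log 5, by positivity, ?_⟩
  intro Ω β _ p X Y b k N hp hX
  have hn := hp.nonneg
  -- the coarse digits
  have hle : ∀ r : ℕ, r * k ≤ (r + 1) * k := fun r => Nat.mul_le_mul_right k (Nat.le_succ r)
  -- digits of the sum given the digits of the summands
  have a1 : ∀ r, CH p (Fl (ad X Y) (r * k)) (ctx b X Y k r) ≤ d * Real.log 3 := by
    intro r
    have h := CH_le_vec hn hp.sum_one (Fl (ad X Y) (r * k)) (ctx b X Y k r) (fun _ => 1) (by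
      intro ω ω' _ _ e i
      unfold ctx at e
      simp only [Prod.mk.injEq] at e
      have e1 := congrFun e.2.1 i
      have e2 := congrFun e.2.2 i
      rw [B58.Fl_apply, B58.Fl_apply] at e1 e2
      have f1 : ∀ ω, Fl (ad X Y) (r * k) ω i =
          ⌊(2 : ℝ) ^ (r * k) * X ω i + (2 : ℝ) ^ (r * k) * Y ω i⌋ := by
        intro ω
        rw [B58.Fl_apply]
        unfold ad
        rw [mul_add]
      rw [f1, f1]
      have b1 := Int.le_floor_add ((2 : ℝ) ^ (r * k) * X ω i) ((2 : ℝ) ^ (r * k) * Y ω i)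
      have b2 := Int.le_floor_add_floor ((2 : ℝ) ^ (r * k) * X ω i) ((2 : ℝ) ^ (r * k) * Y ω i)
      have b3 := Int.le_floor_add ((2 : ℝ) ^ (r * k) * X ω' i) ((2 : ℝ) ^ (r * k) * Y ω' i)
      have b4 := Int.le_floor_add_floor ((2 : ℝ) ^ (r * k) * X ω' i)
        ((2 : ℝ) ^ (r * k) * Y ω' i)
      rw [e1, e2] at b1 b2
      have b5 : |⌊(2 : ℝ) ^ (r * k) * X ω i + (2 : ℝ) ^ (r * k) * Y ω i⌋ -
          ⌊(2 : ℝ) ^ (r * k) * X ω' i + (2 : ℝ) ^ (r * k) * Y ω' i⌋| ≤ 1 :=
        abs_le.mpr ⟨by linarith, by linarith⟩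
      rw [← Int.cast_abs, ← Int.cast_one]
      exact Int.cast_le.mpr b5)
    rw [Ex_const hp.sum_one] at h
    have h4 : (2 * 1 + 1 : ℝ) = 3 := by norm_num
    rwa [h4] at h
  -- the sum
  have a2 : ∀ r, CH p (Fl (ad X Y) ((r + 1) * k)) (ctx b X Y k r) ≤
      d * Real.log 3 + (CH p (Fl (ad X Y) ((r + 1) * k)) b - CH p (Fl (ad X Y) (r * k)) b) := by
    intro r
    have h1 := CH_le_add hn (Fl (ad X Y) ((r + 1) * k)) (Fl (ad X Y) (r * k)) (ctx b X Y k r)
    have h2 := CH_mono_cond hn (X := Fl (ad X Y) ((r + 1) * k))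
      (W' := fun ω => (Fl (ad X Y) (r * k) ω, ctx b X Y k r ω))
      (W := fun ω => (Fl (ad X Y) (r * k) ω, b ω)) (by
        intro ω ω' _ _ e
        unfold ctx at e
        simp only [Prod.mk.injEq] at e ⊢
        tauto)
    have h4 := SMA.chain hp (A := Fl (ad X Y) (r * k)) (A' := Fl (ad X Y) ((r + 1) * k)) b
      (fun ω ω' _ _ e => B58.Fl_fine (ad X Y) (hle r) e)
    have h5 := a1 r
    linarith
  -- the first summand
  have a3 : ∀ r ∈ Finset.range N,
      CH p (Fl X ((r + 1) * k)) (fun ω => (Fl Y (N * k) ω, b ω)) -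
        CH p (Fl X (r * k)) (fun ω => (Fl Y (N * k) ω, b ω)) ≤
      CH p (Fl X ((r + 1) * k)) (ctx b X Y k r) := by
    intro r hr
    have hrN : r * k ≤ N * k := Nat.mul_le_mul_right k (Finset.mem_range.mp hr).le
    have h4 := SMA.chain hp (A := Fl X (r * k)) (A' := Fl X ((r + 1) * k))
      (fun ω => (Fl Y (N * k) ω, b ω)) (fun ω ω' _ _ e => B58.Fl_fine X (hle r) e)
    rw [← h4]
    refine CH_mono_cond hn ?_
    intro ω ω' _ _ e
    unfold ctx
    simp only [Prod.mk.injEq] at e ⊢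
    exact ⟨e.2.2, e.1, B58.Fl_fine Y hrN e.2.1⟩
  have s1 := Finset.sum_le_sum fun r (_ : r ∈ Finset.range N) => a2 r
  rw [Finset.sum_add_distrib,
    Finset.sum_range_sub (fun r => CH p (Fl (ad X Y) (r * k)) b) N, Finset.sum_const,
    Finset.card_range, nsmul_eq_mul] at s1
  have s2 := Finset.sum_le_sum a3
  rw [Finset.sum_range_sub (fun r => CH p (Fl X (r * k)) (fun ω => (Fl Y (N * k) ω, b ω))) N]
    at s2
  have c1 : 0 ≤ CH p (Fl (ad X Y) (0 * k)) b := CH_nonneg hn _ _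
  -- the coarsest digits of the first summand
  have c2 : CH p (Fl X (0 * k)) (fun ω => (Fl Y (N * k) ω, b ω)) ≤ d * Real.log 5 := by
    have h := CH_le_vec hn hp.sum_one (Fl X (0 * k)) (fun ω => (Fl Y (N * k) ω, b ω))
      (fun _ => 2) (by
      intro ω ω' _ _ _ i
      have f1 : ∀ ω, -1 ≤ Fl X (0 * k) ω i ∧ Fl X (0 * k) ω i ≤ 1 := by
        intro ω
        rw [B58.Fl_apply, zero_mul, pow_zero, one_mul]
        have := abs_le.mp (hX ω i)
        constructor
        · rw [Int.le_floor]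
          push_cast
          exact this.1
        · have h7 := Int.floor_le (X ω i)
          have h8 : ((⌊X ω i⌋ : ℤ) : ℝ) ≤ 1 := h7.trans this.2
          exact_mod_cast h8
      have g1 := f1 ω
      have g2 := f1 ω'
      rw [← Int.cast_abs]
      exact_mod_cast abs_le.mpr ⟨by linarith [g1.1, g2.2], by linarith [g1.2, g2.1]⟩)
    rw [Ex_const hp.sum_one] at h
    have h4 : (2 * 2 + 1 : ℝ) = 5 := by norm_num
    rwa [h4] at h
  -- the entropy of the first summand given the second one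
  have c3 : CH p (Fl X (N * k)) (fun ω => (Fl Y (N * k) ω, b ω)) =
      CH p (Fl X (N * k)) b - MI p (Fl X (N * k)) (Fl Y (N * k)) b := by
    have h := CH_chain hn (Fl X (N * k)) (Fl Y (N * k)) b
    unfold MI
    linarith
  rw [Finset.sum_sub_distrib]
  have c4 : (N : ℝ) * (d * Real.log 3) ≤ N * (d * Real.log 5) :=
    mul_le_mul_of_nonneg_left (mul_le_mul_of_nonneg_left h35 hd) (Nat.cast_nonneg N)
  nlinarith [s1, s2, c1, c2, c3, c4]

end Pool.KVA
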