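import Pool.Agent.H54.KVA.Defs
import Pool.Agent.H94.STK.KV
import Pool.Agent.H72.STK.PR2
import Pool.Agent.H40.STK.PRD
import Pool.Agent.H94.STK.CTS

/-!
# Module KVN: sums of independent copies
-/

set_option autoImplicit false

namespace Pool.KVA

open Finset Real MeasureTheory
open Pool.Agent.H49.Ent Pool.Agent.H32.Dense Pool.STK

namespace KVN

/-- Sums of independent copies in an abelian group. -/
lemma sum_copies {Ω Ω' G : Type} [Fintype Ω] [Fintype Ω'] [AddCommGroup G] {n : ℕ}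
    {p : Ω → ℝ} {q : Ω' → ℝ} (hp : IsLaw p) (hq : IsLaw q) (x : Ω → G) (B : Ω' → G) :
    H (pr2 p (prd q : (Fin n → Ω') → ℝ)) (fun w => x w.1 + ∑ i, B (w.2 i)) ≤
      H p x + n * (H (pr2 p q) (fun w => x w.1 + B w.2) - H p x) := by
  obtain ⟨hl, hm, -⟩ := prd_thm Ω' (Fin n) Unit q hq
  obtain ⟨h2, h2a, h2b, -⟩ := pr2_thm Ω (Fin n → Ω') Unit Unit p (prd q) hp hl
  have key : ∀ s : Finset (Fin n), H (pr2 p (prd q : (Fin n → Ω') → ℝ))
      (fun w => x w.1 + ∑ i ∈ s, B (w.2 i)) ≤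
        H p x + s.card * (H (pr2 p q) (fun w => x w.1 + B w.2) - H p x) := by
    intro s
    induction s using Finset.induction_on with
    | empty =>
      simp only [Finset.sum_empty, add_zero, Finset.card_empty, Nat.cast_zero, zero_mul]
      exact (h2a.H x).le
    | insert j s hj ih =>
      obtain ⟨Y₁, hY₁⟩ : ∃ Y₁ : (Fin n → Ω') → G, Y₁ = fun v => ∑ i ∈ s, B (v i) := ⟨_, rfl⟩
      obtain ⟨Y₂, hY₂⟩ : ∃ Y₂ : (Fin n → Ω') → G, Y₂ = fun v => B (v j) := ⟨_, rfl⟩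
      have i1 : H (prd q : (Fin n → Ω') → ℝ) Y₁ + H (prd q : (Fin n → Ω') → ℝ) Y₂ ≤
          H (prd q : (Fin n → Ω') → ℝ) (fun v => (Y₁ v, Y₂ v)) := by
        refine CTS.indep_of hl.nonneg (CTS.H_co prd_thm hq hj) ?_ ?_
        · intro w w' _ _ e
          rw [hY₁]
          refine Finset.sum_congr rfl fun i hi => ?_
          have := congrFun e i
          unfold CTS.co at this
          rw [if_pos hi, if_pos hi] at this
          rw [Option.some.inj this]
        · intro w w' _ _ e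
          rw [hY₂]
          have := congrFun e j
          unfold CTS.co at this
          rw [if_pos (Finset.mem_singleton_self j), if_pos (Finset.mem_singleton_self j)] at this
          simp only
          rw [Option.some.inj this]
      have i2 : H (pr2 p (prd q : (Fin n → Ω') → ℝ)) (fun w => (x w.1, (Y₁ w.2, Y₂ w.2))) =
          H p x + H (prd q : (Fin n → Ω') → ℝ) (fun v => (Y₁ v, Y₂ v)) :=
        (pr2_thm Ω (Fin n → Ω') G (G × G) p (prd q) hp hl).2.2.2 x (fun v => (Y₁ v, Y₂ v))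
      have i3 : H (pr2 p (prd q : (Fin n → Ω') → ℝ)) (fun w => x w.1) = H p x := h2a.H x
      have i4 : H (pr2 p (prd q : (Fin n → Ω') → ℝ)) (fun w => Y₁ w.2) =
        H (prd q : (Fin n → Ω') → ℝ) Y₁ := h2b.H Y₁
      have i5 : H (pr2 p (prd q : (Fin n → Ω') → ℝ)) (fun w => Y₂ w.2) =
        H (prd q : (Fin n → Ω') → ℝ) Y₂ := h2b.H Y₂
      have i6 := kv_thm (Ω × (Fin n → Ω')) G (pr2 p (prd q)) h2 (fun w => x w.1)
        (fun w => Y₁ w.2) (fun w => Y₂ w.2) (by rw [i2, i3, i4, i5]; linarith)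
      have i7 : H (pr2 p (prd q : (Fin n → Ω') → ℝ)) (fun w => x w.1 + Y₂ w.2) =
            H (pr2 p q) (fun w => x w.1 + B w.2) := by
        rw [hY₂]
        exact (CTS.marg_pair hm j).H (fun w : Ω × Ω' => x w.1 + B w.2)
      have i8 : (fun w : Ω × (Fin n → Ω') => x w.1 + ∑ i ∈ insert j s, B (w.2 i)) =
          fun w => x w.1 + Y₁ w.2 + Y₂ w.2 := by
        funext w
        rw [Finset.sum_insert hj, hY₁, hY₂]
        simp only
        abel
      have i9 : H (pr2 p (prd q : (Fin n → Ω') → ℝ)) (fun w => x w.1 + Y₁ w.2) ≤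
          H p x + s.card * (H (pr2 p q) (fun w => x w.1 + B w.2) - H p x) := by
        rw [hY₁]
        exact ih
      rw [i8, Finset.card_insert_of_notMem hj]
      push_cast
      linarith
  have h3 := key Finset.univ
  rwa [Finset.card_univ, Fintype.card_fin] at h3

/-- The integer part of a sum. -/
lemma floor_sum {n : ℕ} (x : ℝ) (y : Fin n → ℝ) :
    ⌊x⌋ + ∑ l, ⌊y l⌋ ≤ ⌊x + ∑ l, y l⌋ ∧ ⌊x + ∑ l, y l⌋ ≤ ⌊x⌋ + ∑ l, ⌊y l⌋ + n := by
  constructor
  · rw [Int.le_floor]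
    push_cast
    exact add_le_add (Int.floor_le x) (Finset.sum_le_sum fun l _ => Int.floor_le (y l))
  · rw [← Int.lt_add_one_iff, Int.floor_lt]
    push_cast
    have h1 : ∑ l, y l ≤ ∑ l, ((⌊y l⌋ : ℝ) + 1) :=
      Finset.sum_le_sum fun l _ => (Int.lt_floor_add_one (y l)).le
    rw [Finset.sum_add_distrib, Finset.sum_const, Finset.card_univ, Fintype.card_fin,
      nsmul_eq_mul, mul_one] at h1
    have h2 := Int.lt_floor_add_one x
    linarith

lemma log_three_pos : 0 < Real.log 3 := Real.log_pos (by norm_num)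

lemma log_le (n : ℕ) : Real.log (2 * n + 1) ≤ n * Real.log 3 := by
  rw [← Real.log_pow]
  refine Real.log_le_log (by positivity) ?_
  have h := one_add_mul_le_pow (a := (2 : ℝ)) (by norm_num) n
  have h3 : (1 + 2 : ℝ) = 3 := by norm_num
  rw [h3] at h
  linarith

/-- `H X ≤ H Y + d log (2 n + 1)` if the coordinates of `X` are between those of `Y` (plus a
constant) and those of `Y` plus `n`. -/
lemma H_round {Ω : Type} [Fintype Ω] {d : ℕ} {p : Ω → ℝ} (hp : IsLaw p) (X Y : Ω → Fin d → ℤ)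
    (a n : ℤ) (h : ∀ ω i, Y ω i + a ≤ X ω i ∧ X ω i ≤ Y ω i + a + n) :
    H p X ≤ H p Y + d * Real.log (2 * n + 1) := by
  have h1 : CH p X Y ≤ d * Real.log (2 * n + 1) := by
    have h2 := CH_le_vec hp.nonneg hp.sum_one X Y (fun _ => (n : ℝ)) (by
      intro ω ω' _ _ e i
      have e1 := h ω i
      have e2 := h ω' i
      rw [e] at e1
      rw [← Int.cast_abs]
      exact_mod_cast abs_le.mpr ⟨by linarith [e1.1, e2.2], by linarith [e1.2, e2.1]⟩)
    rwa [Ex_const hp.sum_one] at h2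
  have h3 : H p X ≤ H p (fun ω => (X ω, Y ω)) :=
    H_mono hp.nonneg (fun ω ω' _ _ e => (Prod.ext_iff.mp e).1)
  unfold CH at h1
  linarith

end KVN

theorem kvn_thm : KVNStmt := by
  intro d
  have hlog := KVN.log_three_pos
  refine ⟨2 * (d * Real.log 3), by positivity, ?_⟩
  intro Ω₁ Ω₂ _ _ p₁ p₂ X Y n k hp₁ hp₂
  obtain ⟨hl, -, -⟩ := prd_thm Ω₂ (Fin n) Unit p₂ hp₂
  obtain ⟨h2, -, -, -⟩ := pr2_thm Ω₁ (Fin n → Ω₂) Unit Unit p₁ (prd p₂) hp₁ hl
  obtain ⟨h2', -, -, -⟩ := pr2_thm Ω₁ Ω₂ Unit Unit p₁ p₂ hp₁ hp₂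
  have h1 := KVN.sum_copies (n := n) hp₁ hp₂ (Fl X k) (Fl Y k)
  -- rounding of the sum of `n` copies
  have h3 : H (ps p₁ p₂ n) (Fl (Sm n X Y) k) ≤
      H (pr2 p₁ (prd p₂ : (Fin n → Ω₂) → ℝ)) (fun w => Fl X k w.1 + ∑ i, Fl Y k (w.2 i)) +
        d * Real.log (2 * n + 1) := by
    have h4 := KVN.H_round h2 (Fl (Sm n X Y) k) (fun w => Fl X k w.1 + ∑ i, Fl Y k (w.2 i)) 0 n
      (by
        intro w i
        have h5 := KVN.floor_sum (2 ^ k * X w.1 i) (fun l => 2 ^ k * Y (w.2 l) i)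
        have h6 : Fl (Sm n X Y) k w i = ⌊2 ^ k * X w.1 i + ∑ l, 2 ^ k * Y (w.2 l) i⌋ := by
          unfold Fl fl rd Sm
          beta_reduce
          rw [mul_add, Finset.mul_sum]
        have h7 : (Fl X k w.1 + ∑ l, Fl Y k (w.2 l)) i =
            ⌊2 ^ k * X w.1 i⌋ + ∑ l, ⌊2 ^ k * Y (w.2 l) i⌋ := by
          rw [Pi.add_apply, Finset.sum_apply]
          rfl
        rw [h6, h7, add_zero]
        exact h5)
    exact_mod_cast h4
  -- rounding of the sum
  have h8 : H (pr2 p₁ p₂) (fun w => Fl X k w.1 + Fl Y k w.2) ≤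
      H (pr2 p₁ p₂) (Fl (Ad X Y) k) + d * Real.log 3 := by
    have h4 := KVN.H_round h2' (fun w => Fl X k w.1 + Fl Y k w.2) (Fl (Ad X Y) k) (-1) 1
      (by
        intro w i
        have h6 : Fl (Ad X Y) k w i = ⌊2 ^ k * X w.1 i + 2 ^ k * Y w.2 i⌋ := by
          unfold Fl fl rd Ad
          beta_reduce
          rw [mul_add]
        have h7 : (Fl X k w.1 + Fl Y k w.2) i =
            ⌊2 ^ k * X w.1 i⌋ + ⌊2 ^ k * Y w.2 i⌋ := rfl
        have a1 := Int.le_floor_add (2 ^ k * X w.1 i) (2 ^ k * Y w.2 i)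
        have a2 := Int.le_floor_add_floor (2 ^ k * X w.1 i) (2 ^ k * Y w.2 i)
        rw [h6, h7]
        constructor <;> linarith)
    have h9 : (2 * ((1 : ℤ) : ℝ) + 1) = 3 := by norm_num
    rw [h9] at h4
    exact h4
  have h10 := KVN.log_le n
  have h11 : (d : ℝ) * Real.log (2 * n + 1) ≤ d * (n * Real.log 3) :=
    mul_le_mul_of_nonneg_left h10 (Nat.cast_nonneg d)
  have h12 : (n : ℝ) * (H (pr2 p₁ p₂) (fun w => Fl X k w.1 + Fl Y k w.2)) ≤
      n * (H (pr2 p₁ p₂) (Fl (Ad X Y) k) + d * Real.log 3) :=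
    mul_le_mul_of_nonneg_left h8 (Nat.cast_nonneg n)
  have h13 : (n : ℝ) * (H (pr2 p₁ p₂) (fun w => Fl X k w.1 + Fl Y k w.2) - H p₁ (Fl X k)) =
      n * (H (pr2 p₁ p₂) (fun w => Fl X k w.1 + Fl Y k w.2)) - n * H p₁ (Fl X k) := by ring
  rw [h13] at h1
  nlinarith [h1, h3, h11, h12]

end Pool.KVA
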